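import Pool.Agent.Lib.MP_6245c4_gt.Cantor


/-! It is consistent with ZFC that `max {b, g} < add (Menger)`. -/

namespace Pool.Agent.Results.MP_6245c4_gt.Consistency

open Pool.Agent.Lib.MP_2739cb_lc Pool.Agent.Shared.RealForcing Pool.Agent.Lib.MP_6245c4_gt
open Cardinal

theorem pow_le {W : Type} [LinearOrder W] [Reg W] (h : ∀ w : W, #(Set.Iio w) ≤ 𝔠)
    (h' : 𝔠 ≤ #W) : #W ^ ℵ₀ ≤ #W := by
  have h1 : #(ℕ → W) ≤ #(Σ w : W, ℕ → Set.Iio w) :=
    mk_le_of_surjective (f := fun x n => (x.2 n).1) fun f =>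
      let ⟨w, hw⟩ := Reg.bdd_countable f; ⟨⟨w, fun n => ⟨f n, hw n⟩⟩, rfl⟩
  rw [← power_def, mk_nat, mk_sigma] at h1
  refine h1.trans ((sum_le_sum _ (fun _ => 𝔠) fun w => ?_).trans ?_)
  · rw [← power_def, mk_nat, ← continuum_power_aleph0]
    exact power_le_power_right (h w)
  · rw [sum_const']
    exact (mul_le_mul' le_rfl h').trans (mul_eq_self Reg.unc.le).le

theorem result : ∃ (M : Type 1) (E : M → M → Prop), IsZFC E ∧ ∃ w b g : M,
    IsOmega E w ∧ IsMinCard E (Unbounded E w) b ∧ IsMinCard E (GFamily E w) g ∧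
    (∀ S τ A, IsTopology E S τ → SecondCountable E w τ → BadFamily E w S τ A →
      ¬ CardLe E A b ∧ ¬ CardLe E A g) ∧
    ∃ S τ a, (∀ x, E x S ↔ Sub E x w) ∧ (∀ O, E O τ ↔ OpenSet E w O) ∧
      IsMinCard E (BadFamily E w S τ) a ∧ E b a ∧ E g a := by
  let W := (Order.succ 𝔠).ord.ToType
  have hW : #W = Order.succ 𝔠 := mk_ord_toType _
  have : Reg W := reg_toType (isRegular_succ aleph0_le_continuum)
    (aleph0_lt_continuum.trans (Order.lt_succ _))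
  have hω : #W ^ ℵ₀ ≤ #W := pow_le (fun w => Order.lt_succ_iff.1 ((Reg.iio w).trans_eq hW))
    ((Order.le_succ _).trans hW.ge)
  have hΛ : #W < #(Set W) := by rw [mk_set]; exact cantor _
  obtain ⟨B, h1, h2⟩ := exists_base hΛ
  have hB : InK B B.k := ⟨le_rfl, h1, h2⟩
  obtain ⟨U⟩ : Nonempty (GU (sys B hB).Cd) := inferInstance
  obtain ⟨b, hb⟩ := exists_isMinCard (fun U F => Unbounded (El U) (cl U om) F) (unbounded U)
  obtain ⟨g, hg⟩ := exists_isMinCard (fun U F => GFamily (El U) (cl U om) F) (gFamily U)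
  have key : ∀ S τ A, IsTopology (El U) S τ → SecondCountable (El U) (cl U om) τ →
      BadFamily (El U) (cl U om) S τ A → ¬ CardLe (El U) A (cl U (oN (#W).ord)) :=
    fun S τ A h1 h2 ⟨h3, X, h4, h5⟩ h6 => h5 (menger_union hΛ hω U S τ A X h1 h2 h3 h4 h6)
  obtain ⟨S, τ, hS⟩ := exists_cantor (P := (sys B hB).Cd)
  obtain ⟨A, hA⟩ := exists_badFamily S τ (fun U => (hS U).1) (fun U => (hS U).2.1)
    (fun U => (hS U).2.2.1) U
  obtain ⟨a, ha⟩ := exists_isMinCard (fun U F => BadFamily (El U) (cl U om) (cl U S) (cl U τ) F)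
    ⟨_, hA, exists_cardLe_on A⟩
  refine ⟨_, El U, MU_zfc, _, b, g, isOmega_om, hb, hg, fun S τ A h1 h2 h3 => ⟨fun h => ?_,
    fun h => ?_⟩, _, _, a, (hS U).1, (hS U).2.1, ha, ?_, ?_⟩
  · obtain ⟨F, h4, h5⟩ := unbounded U
    exact key S τ A h1 h2 h3 (cardLe_mono h (hb.sub MU_zfc (isOrd_cl_on _) h4 h5))
  · obtain ⟨F, h4, h5⟩ := gFamily U
    exact key S τ A h1 h2 h3 (cardLe_mono h (hg.sub MU_zfc (isOrd_cl_on _) h4 h5))
  · exact hb.lt MU_zfc ha (isOrd_cl_on _) (unbounded U)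
      fun F => key _ _ F (hS U).2.2.1 (hS U).2.2.2
  · exact hg.lt MU_zfc ha (isOrd_cl_on _) (gFamily U)
      fun F => key _ _ F (hS U).2.2.1 (hS U).2.2.2

end Pool.Agent.Results.MP_6245c4_gt.Consistency
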